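import Pool.Agent.U74.FA.Word

/-!
# Symmetric automorphisms of a free product of three groups

Owner helper74.
-/

set_option autoImplicit false

namespace Pool.Agent.U74.FA

open Monoid Monoid.CoprodI

variable {G : Fin 3 → Type} [∀ i, Group (G i)]

/-- the free product -/
abbrev Wd (G : Fin 3 → Type) [∀ i, Group (G i)] : Type := CoprodI G

theorem aut_ext {φ ψ : MulAut (Wd G)} (h : ∀ (i : Fin 3) (g : G i), φ (of g) = ψ (of g)) :
    φ = ψ := by
  apply MulEquiv.toMonoidHom_injective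
  apply CoprodI.ext_hom
  intro i
  ext g
  exact h i g

/-- the conjugation of the factors by the elements `y i` -/
def cm (y : Fin 3 → Wd G) : Wd G →* Wd G :=
  CoprodI.lift fun i => (MulAut.conj (y i)).toMonoidHom.comp of

theorem cm_of (y : Fin 3 → Wd G) {i : Fin 3} (g : G i) : cm y (of g) = y i * of g * (y i)⁻¹ := by
  rw [cm, CoprodI.lift_of]
  rfl

/-- the function with value `c` at `s` -/
def fy (s : Fin 3) (c : Wd G) : Fin 3 → Wd G := fun i => if i = s then c else 1

theorem fy_same (s : Fin 3) (c : Wd G) : fy s c s = c := if_pos rfl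

theorem fy_ne {s i : Fin 3} (h : i ≠ s) (c : Wd G) : fy s c i = 1 := if_neg h

theorem cm_fy_same {s : Fin 3} (c : Wd G) (g : G s) : cm (fy s c) (of g) = c * of g * c⁻¹ := by
  rw [cm_of, fy_same]

theorem cm_fy_ne {s i : Fin 3} (h : i ≠ s) (c : Wd G) (g : G i) : cm (fy s c) (of g) = of g := by
  rw [cm_of, fy_ne h, one_mul, inv_one, mul_one]

theorem cm_comp {t s : Fin 3} (hts : t ≠ s) (h h' : G t) :
    (cm (fy s (of h⁻¹))).comp (cm (fy s (of h'⁻¹))) = cm (fy s (of (h * h')⁻¹)) := by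
  apply CoprodI.ext_hom
  intro i
  ext g
  rw [MonoidHom.comp_apply, MonoidHom.comp_apply, MonoidHom.comp_apply]
  by_cases hi : i = s
  · subst hi
    rw [cm_fy_same, cm_fy_same, map_mul, map_mul, cm_fy_same, map_inv (cm _) (of h'⁻¹),
      cm_fy_ne hts, mul_inv_rev, map_mul]
    group
  · rw [cm_fy_ne hi, cm_fy_ne hi, cm_fy_ne hi]

theorem cm_one (s : Fin 3) {t : Fin 3} : cm (fy s (of (1 : G t)⁻¹)) = MonoidHom.id (Wd G) := by
  apply CoprodI.ext_hom
  intro i
  ext g
  rw [MonoidHom.comp_apply, MonoidHom.comp_apply, MonoidHom.id_apply]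
  by_cases hi : i = s
  · subst hi
    rw [cm_fy_same, inv_one, map_one, inv_one, one_mul, mul_one]
  · rw [cm_fy_ne hi]

/-- the partial conjugation of the factor `s` by the elements of the factor `t` -/
def pc (t s : Fin 3) (hts : t ≠ s) : G t →* MulAut (Wd G) where
  toFun h := MonoidHom.toMulEquiv (cm (fy s (of h⁻¹))) (cm (fy s (of h⁻¹⁻¹)))
    (by rw [cm_comp hts, inv_mul_cancel, cm_one]) (by rw [cm_comp hts, mul_inv_cancel, cm_one])
  map_one' := by
    apply MulEquiv.toMonoidHom_injective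
    exact cm_one s
  map_mul' h h' := by
    apply MulEquiv.toMonoidHom_injective
    exact (cm_comp hts h h').symm

theorem pc_same {t s : Fin 3} (hts : t ≠ s) (h : G t) (g : G s) :
    pc t s hts h (of g) = of h⁻¹ * of g * of h := by
  change cm (fy s (of h⁻¹)) (of g) = _
  rw [cm_fy_same, map_inv, inv_inv]

theorem pc_ne {t s : Fin 3} (hts : t ≠ s) (h : G t) {i : Fin 3} (hi : i ≠ s) (g : G i) :
    pc t s hts h (of g) = of g :=
  cm_fy_ne hi _ g

theorem ne_next (t : Fin 3) : t ≠ t + 1 := by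
  fin_cases t <;> decide

/-- the cyclic partial conjugations -/
def al : Wd G →* MulAut (Wd G) := CoprodI.lift fun t => pc t (t + 1) (ne_next t)

theorem al_of {t : Fin 3} (h : G t) : al (of h) = pc t (t + 1) (ne_next t) h := by
  rw [al, CoprodI.lift_of]

/-- the groups of automorphisms of the factors -/
abbrev Fa (G : Fin 3 → Type) [∀ i, Group (G i)] : Type := ∀ i, MulAut (G i)

/-- factor automorphisms -/
def fm (f : Fa G) : Wd G →* Wd G :=
  CoprodI.lift fun i => (of : G i →* Wd G).comp (f i).toMonoidHom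

theorem fm_of (f : Fa G) {i : Fin 3} (g : G i) : fm f (of g) = of (f i g) := by
  rw [fm, CoprodI.lift_of]
  rfl

theorem fm_comp (f f' : Fa G) : (fm f).comp (fm f') = fm (f * f') := by
  apply CoprodI.ext_hom
  intro i
  ext g
  rw [MonoidHom.comp_apply, MonoidHom.comp_apply, MonoidHom.comp_apply, fm_of, fm_of, fm_of]
  rfl

theorem fm_one : fm (1 : Fa G) = MonoidHom.id (Wd G) := by
  apply CoprodI.ext_hom
  intro i
  ext g
  rw [MonoidHom.comp_apply, MonoidHom.comp_apply, fm_of]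
  rfl

/-- the factor automorphisms -/
def be : Fa G →* MulAut (Wd G) where
  toFun f := MonoidHom.toMulEquiv (fm f) (fm f⁻¹)
    (by rw [fm_comp, inv_mul_cancel, fm_one]) (by rw [fm_comp, mul_inv_cancel, fm_one])
  map_one' := by
    apply MulEquiv.toMonoidHom_injective
    exact fm_one
  map_mul' f f' := by
    apply MulEquiv.toMonoidHom_injective
    exact (fm_comp f f').symm

theorem be_of (f : Fa G) {i : Fin 3} (g : G i) : be f (of g) = of (f i g) := fm_of f g

theorem be_pc (f : Fa G) {t s : Fin 3} (hts : t ≠ s) (h : G t) :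
    be f * pc t s hts h = pc t s hts (f t h) * be f := by
  apply aut_ext
  intro i g
  rw [MulAut.mul_apply, MulAut.mul_apply, be_of]
  by_cases hi : i = s
  · subst hi
    rw [pc_same, pc_same, map_mul, map_mul, be_of, be_of, be_of, map_inv (f t)]
  · rw [pc_ne hts _ hi, pc_ne hts _ hi, be_of]

theorem compat (f : Fa G) : (al (G := G)).comp (be f).toMonoidHom =
    (MulAut.conj (be f)).toMonoidHom.comp al := by
  apply CoprodI.ext_hom
  intro i
  ext1 g
  change al (be f (of g)) = be f * al (of g) * (be f)⁻¹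
  rw [be_of, al_of, al_of, be_pc, mul_inv_cancel_right]

/-- `W ⋊ Π Aut(G_i)` -/
abbrev P1 (G : Fin 3 → Type) [∀ i, Group (G i)] : Type := Wd G ⋊[be] Fa G

/-- the action of `W ⋊ Π Aut(G_i)` -/
def th : P1 G →* MulAut (Wd G) := SemidirectProduct.lift al be compat

/-- `W ⋊ (W ⋊ Π Aut(G_i))` -/
abbrev P2 (G : Fin 3 → Type) [∀ i, Group (G i)] : Type := Wd G ⋊[th] P1 G

theorem compat2 (p : P1 G) : (MulAut.conj (G := Wd G)).comp (th p).toMonoidHom =
    (MulAut.conj (th p)).toMonoidHom.comp MulAut.conj := by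
  refine MonoidHom.ext fun x => MulEquiv.ext fun y => ?_
  change th p x * y * (th p x)⁻¹ = th p (x * ((th p)⁻¹ y) * x⁻¹)
  rw [map_mul, map_mul, map_inv]
  have : th p ((th p)⁻¹ y) = y := (th p).apply_symm_apply y
  rw [this]

/-- the map to the automorphism group -/
def xi : P2 G →* MulAut (Wd G) := SemidirectProduct.lift MulAut.conj th compat2

/-! ### frames -/

/-- `ψ` is the conjugation by `y i` on the factor `i` -/
def Fr (ψ : MulAut (Wd G)) (y : Fin 3 → Wd G) : Prop :=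
  ∀ (i : Fin 3) (g : G i), ψ (of g) = y i * of g * (y i)⁻¹

/-- the move -/
def mv (t : Fin 3) (h : G t) (y : Fin 3 → Wd G) : Fin 3 → Wd G := fun s =>
  if s = t + 1 then y t * of h⁻¹ * (y t)⁻¹ * y s else y s

theorem mv_same (t : Fin 3) (h : G t) (y : Fin 3 → Wd G) :
    mv t h y (t + 1) = y t * of h⁻¹ * (y t)⁻¹ * y (t + 1) := if_pos rfl

theorem mv_ne {t s : Fin 3} (hs : s ≠ t + 1) (h : G t) (y : Fin 3 → Wd G) :
    mv t h y s = y s := if_neg hs

theorem Fr.step {ψ : MulAut (Wd G)} {y : Fin 3 → Wd G} (hψ : Fr ψ y) (t : Fin 3) (h : G t) :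
    Fr (ψ * al (of h)) (mv t h y) := by
  intro i g
  rw [MulAut.mul_apply, al_of]
  by_cases hi : i = t + 1
  · subst hi
    rw [pc_same, map_mul, map_mul, hψ, hψ, hψ, mv_same, map_inv]
    group
  · rw [pc_ne _ _ hi, mv_ne hi, hψ]

/-- the vertex `k` lies between the others -/
def St (k : Fin 3) (y : Fin 3 → Wd G) : Prop :=
  ∀ i j : Fin 3, i ≠ k → j ≠ k → i ≠ j → ∃ (a b : G k) (u v : Wd G) (c : G i) (d : G j),
    a ≠ b ∧ Rd k i u ∧ Rd k j v ∧ y i = y k * of a * u * of c ∧ y j = y k * of b * v * of d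

theorem third : ∀ (i j : Fin 3), i ≠ j → ∃ k, k ≠ i ∧ k ≠ j := by
  decide

theorem only : ∀ {i j k : Fin 3}, i ≠ j → i ≠ k → j ≠ k → ∀ l : Fin 3, l ≠ k → l = i ∨ l = j := by
  decide

theorem St_of_one {k i j : Fin 3} {y : Fin 3 → Wd G} (hi : i ≠ k) (hj : j ≠ k) (hij : i ≠ j)
    (h : ∃ (a b : G k) (u v : Wd G) (c : G i) (d : G j),
      a ≠ b ∧ Rd k i u ∧ Rd k j v ∧ y i = y k * of a * u * of c ∧ y j = y k * of b * v * of d) :
    St k y := by
  intro i' j' hi' hj' hij'
  rcases only hij hi hj i' hi' with rfl | rfl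
  · rcases only hij hi hj j' hj' with rfl | rfl
    · exact absurd rfl hij'
    · exact h
  · rcases only hij hi hj j' hj' with rfl | rfl
    · obtain ⟨a, b, u, v, c, d, h1, h2, h3, h4, h5⟩ := h
      exact ⟨b, a, v, u, d, c, h1.symm, h3, h2, h5, h4⟩
    · exact absurd rfl hij'

theorem St.step {k t : Fin 3} {y : Fin 3 → Wd G} (hk : St k y) (htk : t ≠ k) {h : G t}
    (hh : h ≠ 1) : St t (mv t h y) := by
  obtain ⟨j, hjt, hjk⟩ := third t k htk
  obtain ⟨a, b, u, v, c, d, hab, hu, hv, e1, e2⟩ := hk t j htk hjk hjt.symm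
  have hab' : a⁻¹ * b ≠ 1 := fun h1 => hab (inv_mul_eq_one.1 h1)
  have hV : Rd t j (u⁻¹ * of (a⁻¹ * b) * v) := Rd.mid hab' htk.symm hjk.symm hu.inv hv
  have hAB : h⁻¹ * c⁻¹ ≠ c⁻¹ := fun h1 => hh (inv_eq_one.1 (mul_eq_right.1 h1))
  have f1 : (y t)⁻¹ * y k = of c⁻¹ * u⁻¹ * of a⁻¹ := by
    rw [e1, map_inv, map_inv]
    group
  have f2 : (y t)⁻¹ * y j = of c⁻¹ * (u⁻¹ * of (a⁻¹ * b) * v) * of d := by
    rw [e1, e2, map_mul, map_inv, map_inv]
    group
  have ht : mv t h y t = y t := mv_ne (ne_next t) h y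
  refine St_of_one (i := k) (j := j) htk.symm hjt hjk.symm ?_
  rcases only (i := k) (j := j) (k := t) hjk.symm htk.symm hjt (t + 1) (ne_next t).symm with e | e
  · have hj1 : j ≠ t + 1 := by
      rw [e]
      exact hjk
    refine ⟨h⁻¹ * c⁻¹, c⁻¹, u⁻¹, u⁻¹ * of (a⁻¹ * b) * v, a⁻¹, d, hAB, hu.inv, hV, ?_, ?_⟩
    · rw [ht]
      have h3 : mv t h y k = y t * of h⁻¹ * (y t)⁻¹ * y k := if_pos e.symm
      rw [h3, mul_assoc _ (y t)⁻¹, f1, map_mul]
      group
    · rw [ht, mv_ne hj1, ← mul_inv_cancel_left (y t) (y j), f2]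
      group
  · have hk1 : k ≠ t + 1 := by
      rw [e]
      exact hjk.symm
    refine ⟨c⁻¹, h⁻¹ * c⁻¹, u⁻¹, u⁻¹ * of (a⁻¹ * b) * v, a⁻¹, d, hAB.symm, hu.inv, hV, ?_, ?_⟩
    · rw [ht, mv_ne hk1, ← mul_inv_cancel_left (y t) (y k), f1]
      group
    · rw [ht]
      have h3 : mv t h y j = y t * of h⁻¹ * (y t)⁻¹ * y j := if_pos e.symm
      rw [h3, mul_assoc _ (y t)⁻¹, f2, map_mul of h⁻¹]
      group

theorem St_first (t : Fin 3) {h : G t} (hh : h ≠ 1) : St t (mv t h (fun _ => 1)) := by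
  obtain ⟨j, hjt, hj1⟩ := third t (t + 1) (ne_next t)
  refine St_of_one (i := t + 1) (j := j) (ne_next t).symm hjt hj1.symm
    ⟨h⁻¹, 1, 1, 1, 1, 1, fun h1 => hh (inv_eq_one.1 h1), Or.inl rfl, Or.inl rfl, ?_, ?_⟩
  · rw [mv_same, mv_ne (ne_next t), map_one]
    group
  · rw [mv_ne hj1, mv_ne (ne_next t), map_one, map_one]
    group

/-- reduced words move the frame to a state -/
theorem run {p q : Fin 3} (w : NeWord G p q) : ∀ (ψ : MulAut (Wd G)) (y : Fin 3 → Wd G), Fr ψ y →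
    (y = (fun _ => 1) ∨ ∃ k, k ≠ p ∧ St k y) → ∃ y', Fr (ψ * al w.prod) y' ∧ St q y' := by
  induction w with
  | singleton x hx =>
    intro ψ y hψ hy
    refine ⟨mv _ x y, ?_, ?_⟩
    · rw [NeWord.prod_singleton]
      exact hψ.step _ x
    · rcases hy with rfl | ⟨k, hk, hy⟩
      · exact St_first _ hx
      · exact hy.step hk.symm hx
  | append w₁ hne w₂ ih1 ih2 =>
    intro ψ y hψ hy
    obtain ⟨y1, h1, h2⟩ := ih1 ψ y hψ hy
    obtain ⟨y2, h3, h4⟩ := ih2 _ y1 h1 (Or.inr ⟨_, hne, h2⟩)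
    refine ⟨y2, ?_, h4⟩
    rw [NeWord.append_prod, map_mul, ← mul_assoc]
    exact h3

/-- an inner automorphism times a factor automorphism is not in a state -/
theorem not_state (hG : ∀ i, Nontrivial (G i)) {ψ : MulAut (Wd G)} {y : Fin 3 → Wd G} {k : Fin 3}
    (hψ : Fr ψ y) (hk : St k y) (z : Wd G) (f : Fa G)
    (h : ∀ (i : Fin 3) (g : G i), ψ (of g) = z * of (f i g) * z⁻¹) : False := by
  have h1 : ∀ i, ∃ d : G i, y i = z * of d := by
    intro i
    obtain ⟨g, hg⟩ := exists_ne (1 : G i)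
    have h2 : (z⁻¹ * y i) * of g * (z⁻¹ * y i)⁻¹ = of (f i g) := by
      have h3 := (hψ i g).symm.trans (h i g)
      have h4 : (z⁻¹ * y i) * of g * (z⁻¹ * y i)⁻¹ = z⁻¹ * (y i * of g * (y i)⁻¹) * z := by group
      rw [h4, h3]
      group
    obtain ⟨d, hd⟩ := malnormal hg h2
    exact ⟨d, by rw [← hd, mul_inv_cancel_left]⟩
  choose d hd using h1
  obtain ⟨i, hik, -⟩ := third k (k + 1) (ne_next k)
  obtain ⟨j, hjk, hji⟩ := third k i hik.symm
  obtain ⟨a, b, u, v, c, e, hab, hu, hv, e1, e2⟩ := hk i j hik hjk hji.symm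
  rw [hd i, hd k] at e1
  rw [hd j, hd k] at e2
  have k1 : d k * a = 1 := by
    refine eq_one_of hik.symm (c := d i * c⁻¹) hu ?_
    rw [map_mul, map_mul, map_inv]
    have : of (d i) = of (d k) * of a * u * of c := by
      have := mul_left_cancel (e1.trans (by group :
        z * of (d k) * of a * u * of c = z * (of (d k) * of a * u * of c)))
      exact this
    rw [this]
    group
  have k2 : d k * b = 1 := by
    refine eq_one_of hjk.symm (c := d j * e⁻¹) hv ?_
    rw [map_mul, map_mul, map_inv]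
    have : of (d j) = of (d k) * of b * v * of e := by
      have := mul_left_cancel (e2.trans (by group :
        z * of (d k) * of b * v * of e = z * (of (d k) * of b * v * of e)))
      exact this
    rw [this]
    group
  exact hab (mul_left_cancel (k1.trans k2.symm))

theorem xi_apply (x w : Wd G) (f : Fa G) (z : Wd G) :
    xi ⟨x, ⟨w, f⟩⟩ z = x * al w (be f z) * x⁻¹ := rfl

theorem one_of_al (hG : ∀ i, Nontrivial (G i)) {w z : Wd G} {f : Fa G}
    (h : ∀ (i : Fin 3) (g : G i), al w (of g) = z * of (f i g) * z⁻¹) : w = 1 := by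
  classical
  by_contra hw
  obtain ⟨W, hW⟩ : ∃ W : Word G, W.prod = w := ⟨_, (Word.equiv (M := G)).symm_apply_apply w⟩
  have hWe : W ≠ Word.empty := by
    rintro rfl
    rw [Word.prod_empty] at hW
    exact hw hW.symm
  obtain ⟨p, q, w', hw'⟩ := NeWord.of_word W hWe
  have hw2 : w'.prod = w := by
    rw [← hW, ← hw']
    rfl
  obtain ⟨y', h1, h2⟩ := run w' 1 (fun _ => 1) (fun i g => by simp) (Or.inl rfl)
  rw [one_mul, hw2] at h1
  exact not_state hG h1 h2 z f h

theorem xi_inj (hG : ∀ i, Nontrivial (G i)) : Function.Injective (xi (G := G)) := by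
  rw [injective_iff_map_eq_one]
  rintro ⟨x, ⟨w, f⟩⟩ h
  have h1 : ∀ z, x * al w (be f z) * x⁻¹ = z := fun z => by
    rw [← xi_apply, h]
    rfl
  have hw : w = 1 := by
    refine one_of_al hG (z := x⁻¹) (f := f⁻¹) fun i g => ?_
    have h2 := h1 (of ((f⁻¹ : Fa G) i g))
    rw [be_of] at h2
    have h3 : f i ((f⁻¹ : Fa G) i g) = g := (f i).apply_symm_apply g
    rw [h3] at h2
    rw [← h2]
    group
  subst hw
  have h2 : ∀ (i : Fin 3) (g : G i), x * of (f i g) * x⁻¹ = of g := by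
    intro i g
    have := h1 (of g)
    rw [be_of, map_one] at this
    exact this
  have hx : ∀ i, ∃ d : G i, x = of d := by
    intro i
    obtain ⟨g, hg⟩ := exists_ne (1 : G i)
    exact malnormal (x := f i g) (fun h => hg ((map_eq_one_iff _ (f i).injective).1 h)) (h2 i g)
  obtain ⟨d, hd⟩ := hx 0
  obtain ⟨d', hd'⟩ := hx 1
  have hd1 : d = 1 := of_ne (i := 0) (j := 1) (by decide) (hd.symm.trans hd')
  have hx1 : x = 1 := by rw [hd, hd1, map_one]
  subst hx1
  have hf : f = 1 := by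
    funext i
    ext g
    have := h2 i g
    rw [one_mul, inv_one, mul_one] at this
    exact of_injective i this
  subst hf
  rfl

end Pool.Agent.U74.FA
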