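import Pool.Agent.U74.FA.Sd

/-!
# The group of the symmetric automorphisms of a free product of three groups

Owner helper74.
-/

set_option autoImplicit false

namespace Pool.Agent.U74.FA

open Monoid Monoid.CoprodI
open Pool.Agent.Y110.FJ (ClosedE)
open Pool.Agent.R684.FP (FbC)
open Pool.Agent.R941.FJ (C_equiv C_le)

variable {C : ∀ (G : Type) [Group G], Prop} {G : Fin 3 → Type} [∀ i, Group (G i)]

theorem Fr.one : Fr (1 : MulAut (Wd G)) (fun _ => 1) := fun i g => by simp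

theorem Fr.mul {ψ ψ' : MulAut (Wd G)} {y y' : Fin 3 → Wd G} (h : Fr ψ y) (h' : Fr ψ' y') :
    Fr (ψ * ψ') (fun i => ψ (y' i) * y i) := by
  intro i g
  rw [MulAut.mul_apply, h', map_mul, map_mul, h, map_inv]
  group

theorem al_Fr (w : Wd G) : ∃ y, Fr (al w) y := by
  induction w using CoprodI.induction_on with
  | one =>
    rw [map_one]
    exact ⟨_, Fr.one⟩
  | of i g =>
    have := Fr.step Fr.one i g
    rw [one_mul] at this
    exact ⟨_, this⟩
  | mul x y hx hy =>
    obtain ⟨a, ha⟩ := hx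
    obtain ⟨b, hb⟩ := hy
    rw [map_mul]
    exact ⟨_, ha.mul hb⟩

theorem C_Fa (hC : ClosedE C) (hH : ∀ i, C (Hol (G i))) : C (Fa G) := by
  have h1 : ∀ i, C (MulAut (G i)) := fun i =>
    hC.base.of_injective _ _ (SemidirectProduct.inr : MulAut (G i) →* Hol (G i))
      SemidirectProduct.inr_injective (hH i)
  refine hC.base.of_injective _ (MulAut (G 0) × (MulAut (G 1) × MulAut (G 2)))
    ((Pi.evalMonoidHom _ 0).prod ((Pi.evalMonoidHom _ 1).prod (Pi.evalMonoidHom _ 2))) ?_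
    (hC.base.prod _ _ (h1 0) (hC.base.prod _ _ (h1 1) (h1 2)))
  intro f f' h
  have h0 : f 0 = f' 0 := congrArg Prod.fst h
  have h1 : f 1 = f' 1 := congrArg (fun p => p.2.1) h
  have h2 : f 2 = f' 2 := congrArg (fun p => p.2.2) h
  funext i
  fin_cases i
  · exact h0
  · exact h1
  · exact h2

theorem C_P1 (hC : ClosedE C) (hF : FbC C) (hH : ∀ i, C (Hol (G i))) : C (P1 G) :=
  sd hC hF be (C_Fa hC hH) (fun f i => ⟨1, f i, fun g => by rw [be_of, one_mul, inv_one, mul_one]⟩)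
    hH

theorem C_P2 (hC : ClosedE C) (hF : FbC C) (hH : ∀ i, C (Hol (G i))) : C (P2 G) := by
  refine sd hC hF th (C_P1 hC hF hH) ?_ hH
  rintro ⟨w, f⟩ i
  obtain ⟨y, hy⟩ := al_Fr w
  refine ⟨y i, f i, fun g => ?_⟩
  change al w (be f (of g)) = _
  rw [be_of, hy]

/-- the image of `P2` -/
def RG (G : Fin 3 → Type) [∀ i, Group (G i)] : Subgroup (MulAut (Wd G)) := (xi (G := G)).range

theorem conj_mem (x : Wd G) : MulAut.conj x ∈ RG G := by
  refine ⟨⟨x, 1⟩, ?_⟩
  apply MulEquiv.ext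
  intro z
  change x * al 1 (be 1 z) * x⁻¹ = x * z * x⁻¹
  rw [map_one, map_one]
  rfl

theorem al_mem (w : Wd G) : al w ∈ RG G := by
  refine ⟨⟨1, ⟨w, 1⟩⟩, ?_⟩
  apply MulEquiv.ext
  intro z
  change 1 * al w (be 1 z) * 1⁻¹ = al w z
  rw [map_one, one_mul, inv_one, mul_one]
  rfl

theorem be_mem (f : Fa G) : be f ∈ RG G := by
  refine ⟨⟨1, ⟨1, f⟩⟩, ?_⟩
  apply MulEquiv.ext
  intro z
  change 1 * al 1 (be f z) * 1⁻¹ = be f z
  rw [map_one, one_mul, inv_one, mul_one]
  rfl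

theorem ne_two (t : Fin 3) : t ≠ t + 2 := by
  revert t
  decide

theorem one_two (t : Fin 3) : t + 1 ≠ t + 2 := by
  revert t
  decide

theorem three : ∀ (t i : Fin 3), i = t ∨ i = t + 1 ∨ i = t + 2 := by
  decide

/-- inner automorphisms are products of partial conjugations and factor automorphisms -/
theorem inn_eq {t : Fin 3} (h : G t) : MulAut.conj (of h : Wd G) =
    pc t (t + 1) (ne_next t) h⁻¹ * pc t (t + 2) (ne_two t) h⁻¹ *
      be (Pi.mulSingle t (MulAut.conj h)) := by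
  apply aut_ext
  intro i g
  rw [MulAut.mul_apply, MulAut.mul_apply, be_of, MulAut.conj_apply]
  rcases three t i with rfl | rfl | rfl
  · rw [Pi.mulSingle_eq_same, pc_ne _ _ (ne_two i), pc_ne _ _ (ne_next i), MulAut.conj_apply,
      map_mul, map_mul, map_inv]
  · rw [Pi.mulSingle_eq_of_ne (ne_next t).symm, MulAut.one_apply, pc_ne _ _ (one_two t), pc_same,
      inv_inv, map_inv]
  · rw [Pi.mulSingle_eq_of_ne (ne_two t).symm, MulAut.one_apply, pc_same, map_mul, map_mul,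
      pc_ne _ _ (ne_next t), pc_ne _ _ (one_two t).symm, pc_ne _ _ (ne_next t), inv_inv, map_inv]

/-- `φ` is the conjugation of one factor by an element of another factor -/
def IsPartial (φ : MulAut (Wd G)) : Prop :=
  ∃ (t s : Fin 3) (h : G t), t ≠ s ∧ (∀ g : G s, φ (of g) = of h * of g * (of h)⁻¹) ∧
    ∀ i, i ≠ s → ∀ g : G i, φ (of g) = of g

/-- `φ` maps the factors onto factors -/
def IsFactor (φ : MulAut (Wd G)) : Prop :=
  ∃ (π : Equiv.Perm (Fin 3)) (e : ∀ i, G i ≃* G (π i)), ∀ (i : Fin 3) (g : G i),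
    φ (of g) = of (e i g)

theorem part_pc {t s : Fin 3} (hts : t ≠ s) (h : G t) : IsPartial (pc t s hts h) :=
  ⟨t, s, h⁻¹, hts, fun g => by rw [pc_same, map_inv, inv_inv], fun i hi g => pc_ne hts h hi g⟩

theorem pc_of_part {φ : MulAut (Wd G)} (h : IsPartial φ) :
    ∃ (t s : Fin 3) (hts : t ≠ s) (h : G t), φ = pc t s hts h := by
  obtain ⟨t, s, h, hts, h1, h2⟩ := h
  refine ⟨t, s, hts, h⁻¹, ?_⟩
  apply aut_ext
  intro i g
  by_cases hi : i = s
  · subst hi
    rw [h1, pc_same, inv_inv, map_inv]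
  · rw [h2 i hi, pc_ne _ _ hi]

theorem pc_mem {t s : Fin 3} (hts : t ≠ s) (h : G t) : pc t s hts h ∈ RG G := by
  have h1 : ∀ h : G t, pc t (t + 1) (ne_next t) h ∈ RG G := fun h => by
    rw [← al_of]
    exact al_mem _
  rcases three t s with rfl | rfl | rfl
  · exact absurd rfl hts
  · exact h1 h
  · have h2 := inn_eq h⁻¹
    rw [inv_inv] at h2
    have h3 : pc t (t + 2) (ne_two t) h = (pc t (t + 1) (ne_next t) h)⁻¹ *
        MulAut.conj (of h⁻¹ : Wd G) * (be (Pi.mulSingle t (MulAut.conj h⁻¹)))⁻¹ := by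
      rw [h2]
      group
    rw [h3]
    exact mul_mem (mul_mem (inv_mem (h1 h)) (conj_mem _)) (inv_mem (be_mem _))

theorem part_mem {φ : MulAut (Wd G)} (h : IsPartial φ) : φ ∈ RG G := by
  obtain ⟨t, s, hts, g, hg⟩ := pc_of_part h
  rw [hg]
  exact pc_mem hts g

/-- the group of the symmetric automorphisms -/
def symG (G : Fin 3 → Type) [∀ i, Group (G i)] : Subgroup (MulAut (Wd G)) :=
  Subgroup.closure {φ | IsPartial φ ∨ IsFactor φ}

theorem fac_be (f : Fa G) : IsFactor (be f) := ⟨1, f, fun i g => be_of f g⟩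

theorem be_of_fac {φ : MulAut (Wd G)} (e : ∀ i, G i ≃* G i)
    (h : ∀ (i : Fin 3) (g : G i), φ (of g) = of (e i g)) : φ = be (G := G) e := by
  apply aut_ext
  intro i g
  rw [h, be_of]

theorem conj_sym (x : Wd G) : MulAut.conj x ∈ symG G := by
  have hp : ∀ {t s : Fin 3} (hts : t ≠ s) (h : G t), pc t s hts h ∈ symG G := fun hts h =>
    Subgroup.subset_closure (Or.inl (part_pc hts h))
  induction x using CoprodI.induction_on with
  | one =>
    rw [map_one]
    exact one_mem _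
  | of i g =>
    rw [inn_eq]
    exact mul_mem (mul_mem (hp _ _) (hp _ _)) (Subgroup.subset_closure (Or.inr (fac_be _)))
  | mul x y hx hy =>
    rw [map_mul]
    exact mul_mem hx hy

theorem al_sym (x : Wd G) : al x ∈ symG G := by
  induction x using CoprodI.induction_on with
  | one =>
    rw [map_one]
    exact one_mem _
  | of i g =>
    rw [al_of]
    exact Subgroup.subset_closure (Or.inl (part_pc _ _))
  | mul x y hx hy =>
    rw [map_mul]
    exact mul_mem hx hy

theorem xi_mul (x w : Wd G) (f : Fa G) : xi ⟨x, ⟨w, f⟩⟩ = MulAut.conj x * al w * be f := by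
  apply MulEquiv.ext
  intro z
  rw [xi_apply]
  rfl

theorem RG_le : RG G ≤ symG G := by
  rintro _ ⟨⟨x, ⟨w, f⟩⟩, rfl⟩
  rw [xi_mul]
  exact mul_mem (mul_mem (conj_sym x) (al_sym w)) (Subgroup.subset_closure (Or.inr (fac_be _)))

/-! ### permutations of the factors -/

/-- the data of a factor automorphism -/
structure FacD (φ : MulAut (Wd G)) (π : Equiv.Perm (Fin 3)) : Prop where
  ex : ∃ e : ∀ i, G i ≃* G (π i), ∀ (i : Fin 3) (g : G i), φ (of g) = of (e i g)

theorem cast_of {i j : Fin 3} (h : i = j) (g : G i) : (of (h ▸ g : G j) : Wd G) = of g := by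
  subst h
  rfl

/-- the isomorphism of equal factors -/
def castE {i j : Fin 3} (h : i = j) : G i ≃* G j := h ▸ MulEquiv.refl (G i)

theorem castE_of {i j : Fin 3} (h : i = j) (g : G i) : (of (castE h g) : Wd G) = of g := by
  subst h
  rfl

theorem FacD.one : FacD (1 : MulAut (Wd G)) 1 := ⟨⟨fun i => MulEquiv.refl _, fun i g => rfl⟩⟩

theorem FacD.mul {φ ψ : MulAut (Wd G)} {π σ : Equiv.Perm (Fin 3)} (h : FacD φ π) (h' : FacD ψ σ) :
    FacD (φ * ψ) (π * σ) := by
  obtain ⟨e, he⟩ := h.ex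
  obtain ⟨e', he'⟩ := h'.ex
  refine ⟨⟨fun i => (e' i).trans (e (σ i)), fun i g => ?_⟩⟩
  rw [MulAut.mul_apply, he', he]
  rfl

theorem FacD.inv {φ : MulAut (Wd G)} {π : Equiv.Perm (Fin 3)} (h : FacD φ π) : FacD φ⁻¹ π⁻¹ := by
  obtain ⟨e, he⟩ := h.ex
  have hi : ∀ i, i = π (π⁻¹ i) := fun i => (π.apply_symm_apply i).symm
  refine ⟨⟨fun i => (castE (hi i)).trans (e (π⁻¹ i)).symm, fun i g => ?_⟩⟩
  apply φ.injective
  have h1 : φ ((φ⁻¹ : MulAut (Wd G)) (of g)) = of g := φ.apply_symm_apply _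
  rw [h1, he]
  change of g = of ((e (π⁻¹ i)) ((e (π⁻¹ i)).symm (castE (hi i) g)))
  rw [MulEquiv.apply_symm_apply, castE_of]

theorem FacD.be {φ : MulAut (Wd G)} (h : FacD φ 1) : φ ∈ RG G := by
  obtain ⟨e, he⟩ := h.ex
  rw [be_of_fac (fun i => e i) he]
  exact be_mem _

theorem conj_pc {φ : MulAut (Wd G)} {π : Equiv.Perm (Fin 3)} (h : FacD φ π) {t s : Fin 3}
    (hts : t ≠ s) (g : G t) : φ * pc t s hts g * φ⁻¹ ∈ RG G := by
  obtain ⟨e, he⟩ := h.ex
  refine part_mem ⟨π t, π s, e t g⁻¹, fun h => hts (π.injective h), ?_, ?_⟩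
  · intro x
    obtain ⟨x', rfl⟩ := (e s).surjective x
    rw [MulAut.mul_apply, MulAut.mul_apply]
    have h1 : (φ⁻¹ : MulAut (Wd G)) (of (e s x')) = of x' := by
      rw [← he]
      exact φ.symm_apply_apply _
    rw [h1, pc_same, map_mul, map_mul, he, he, he, map_inv (e t), map_inv, inv_inv]
  · intro i hi x
    obtain ⟨x', hx'⟩ : ∃ x' : G (π⁻¹ i), (of x : Wd G) = of (e (π⁻¹ i) x') := by
      refine ⟨(e (π⁻¹ i)).symm (castE (π.apply_symm_apply i).symm x), ?_⟩
      rw [MulEquiv.apply_symm_apply]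
      exact (castE_of (π.apply_symm_apply i).symm x).symm
    have hi' : π⁻¹ i ≠ s := by
      rintro rfl
      exact hi (π.apply_symm_apply i).symm
    rw [MulAut.mul_apply, MulAut.mul_apply, hx']
    have h1 : (φ⁻¹ : MulAut (Wd G)) (of (e (π⁻¹ i) x')) = of x' := by
      rw [← he]
      exact φ.symm_apply_apply _
    rw [h1, pc_ne _ _ hi', he]

/-- the factor automorphisms normalize the group -/
theorem fac_conj {φ : MulAut (Wd G)} {π : Equiv.Perm (Fin 3)} (h : FacD φ π) {r : MulAut (Wd G)}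
    (hr : r ∈ RG G) : φ * r * φ⁻¹ ∈ RG G := by
  obtain ⟨⟨x, ⟨w, f⟩⟩, rfl⟩ := hr
  rw [xi_mul]
  have e1 : φ * MulAut.conj x * φ⁻¹ = MulAut.conj (φ x) := by
    apply MulEquiv.ext
    intro z
    rw [MulAut.mul_apply, MulAut.mul_apply, MulAut.conj_apply, MulAut.conj_apply, map_mul, map_mul,
      map_inv]
    have : φ ((φ⁻¹ : MulAut (Wd G)) z) = z := φ.apply_symm_apply _
    rw [this]
  have e2 : ∀ w : Wd G, φ * al w * φ⁻¹ ∈ RG G := by
    intro w
    induction w using CoprodI.induction_on with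
    | one =>
      rw [map_one, mul_one, mul_inv_cancel]
      exact one_mem _
    | of i g =>
      rw [al_of]
      exact conj_pc h _ g
    | mul x y hx hy =>
      rw [map_mul]
      have : φ * (al x * al y) * φ⁻¹ = (φ * al x * φ⁻¹) * (φ * al y * φ⁻¹) := by group
      rw [this]
      exact mul_mem hx hy
  have e3 : φ * be f * φ⁻¹ ∈ RG G := by
    have h1 : FacD (be f) 1 := ⟨⟨f, fun i g => be_of f g⟩⟩
    have h2 := (h.mul h1).mul h.inv
    rw [mul_one, mul_inv_cancel] at h2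
    exact h2.be
  have e4 : φ * (MulAut.conj x * al w * be f) * φ⁻¹ =
      (φ * MulAut.conj x * φ⁻¹) * (φ * al w * φ⁻¹) * (φ * be f * φ⁻¹) := by group
  rw [e4]
  refine mul_mem (mul_mem ?_ (e2 w)) e3
  rw [e1]
  exact conj_mem _

theorem sym_dec {ψ : MulAut (Wd G)} (h : ψ ∈ symG G) :
    ∃ (φ r : MulAut (Wd G)) (π : Equiv.Perm (Fin 3)), FacD φ π ∧ r ∈ RG G ∧ ψ = φ * r := by
  induction h using Subgroup.closure_induction with
  | mem x hx =>
    rcases hx with hx | ⟨π, e, he⟩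
    · exact ⟨1, x, 1, FacD.one, part_mem hx, (one_mul x).symm⟩
    · exact ⟨x, 1, π, ⟨⟨e, he⟩⟩, one_mem _, (mul_one x).symm⟩
  | one => exact ⟨1, 1, 1, FacD.one, one_mem _, (one_mul 1).symm⟩
  | mul x y _ _ hx hy =>
    obtain ⟨φ, r, π, h1, h2, rfl⟩ := hx
    obtain ⟨φ', r', π', h1', h2', rfl⟩ := hy
    have h3 := fac_conj h1'.inv h2
    rw [inv_inv] at h3
    refine ⟨φ * φ', (φ'⁻¹ * r * φ') * r', _, h1.mul h1', mul_mem h3 h2', ?_⟩
    group
  | inv x _ hx =>
    obtain ⟨φ, r, π, h1, h2, rfl⟩ := hx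
    refine ⟨φ⁻¹, φ * r⁻¹ * φ⁻¹, _, h1.inv, fac_conj h1 (inv_mem h2), ?_⟩
    group

theorem finiteIndex : ((RG G).subgroupOf (symG G)).FiniteIndex := by
  classical
  have h1 : ∀ q : symG G ⧸ (RG G).subgroupOf (symG G), ∃ (ψ : symG G)
      (φ r : MulAut (Wd G)) (π : Equiv.Perm (Fin 3)), QuotientGroup.mk ψ = q ∧
      FacD φ π ∧ r ∈ RG G ∧ (ψ : MulAut (Wd G)) = φ * r := by
    intro q
    obtain ⟨ψ, rfl⟩ := QuotientGroup.mk_surjective q
    obtain ⟨φ, r, π, a, b, c⟩ := sym_dec ψ.2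
    exact ⟨ψ, φ, r, π, rfl, a, b, c⟩
  choose ψ φ r π e1 e2 e3 e4 using h1
  have hinj : Function.Injective π := by
    intro q q' hqq
    rw [← e1 q, ← e1 q', QuotientGroup.eq, Subgroup.mem_subgroupOf]
    have h2 : (((ψ q)⁻¹ * ψ q' : symG G) : MulAut (Wd G)) =
        (r q)⁻¹ * ((φ q)⁻¹ * φ q') * r q' := by
      rw [Subgroup.coe_mul, Subgroup.coe_inv, e4, e4]
      group
    rw [h2]
    refine mul_mem (mul_mem (inv_mem (e3 q)) ?_) (e3 q')
    have h3 := (e2 q).inv.mul (e2 q')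
    rw [hqq, inv_mul_cancel] at h3
    exact h3.be
  have : Finite (symG G ⧸ (RG G).subgroupOf (symG G)) := Finite.of_injective π hinj
  exact Subgroup.finiteIndex_of_finite_quotient

/-- the embedding of the holomorph of a factor -/
def hm (t : Fin 3) : Hol (G t) →* P1 G :=
  SemidirectProduct.map (of : G t →* Wd G) (MonoidHom.mulSingle (fun i => MulAut (G i)) t) (by
    intro g
    ext x
    change of (g x) = be (Pi.mulSingle t g) (of x)
    rw [be_of, Pi.mulSingle_eq_same])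

theorem hm_inj (t : Fin 3) : Function.Injective (hm (G := G) t) := by
  intro a b h
  have h1 := congrArg SemidirectProduct.left h
  have h2 := congrArg SemidirectProduct.right h
  have h1' : (of a.left : Wd G) = of b.left := h1
  have h2' : (Pi.mulSingle t a.right : Fa G) = Pi.mulSingle t b.right := h2
  apply SemidirectProduct.ext
  · exact of_injective t h1'
  · exact Pi.mulSingle_injective t h2'

/-- **the symmetric automorphisms of a free product of three groups** -/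
theorem main (hC : ClosedE C) (hF : FbC C) (hG : ∀ i, Nontrivial (G i)) :
    C ↥(symG G) ↔ ∀ i, C (Hol (G i)) := by
  have e : P2 G ≃* RG G := MonoidHom.ofInjective (xi_inj hG)
  constructor
  · intro h i
    have h1 : C ↥(RG G) := C_le hC.base RG_le h
    have h2 : C (P2 G) := C_equiv hC.base e h1
    have h3 : C (P1 G) := hC.base.of_injective _ _ (SemidirectProduct.inr : P1 G →* P2 G)
      SemidirectProduct.inr_injective h2
    exact hC.base.of_injective _ _ (hm i) (hm_inj i) h3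
  · intro h
    have h1 : C ↥(RG G) := C_equiv hC.base e.symm (C_P2 hC hF h)
    refine hC.base.finiteIndex ↥(symG G) ((RG G).subgroupOf (symG G)) finiteIndex ?_
    exact C_equiv hC.base (Subgroup.subgroupOfEquivOfLe RG_le) h1

end Pool.Agent.U74.FA
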