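import Pool.Agent.R684.FP.Main
import Pool.Agent.R779.FJ.Col
import Pool.Agent.U74.FA.Auto

/-!
# Semidirect products of free products with groups which preserve the classes of the factors

Owner helper74.
-/

set_option autoImplicit false

namespace Pool.Agent.U74.FA

open Monoid Monoid.CoprodI
open Pool.Agent.Y110.FJ (ClosedE)
open Pool.Agent.R684.FP (FbC IsFreeProd Pm main_all)
open Pool.Agent.R941.FJ (C_equiv C_le C_cyc)

variable {C : ∀ (G : Type) [Group G], Prop}

/-- the holomorph -/
abbrev Hol (H : Type) [Group H] : Type := H ⋊[MonoidHom.id (MulAut H)] MulAut H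

/-- the extension of a subgroup by an element which normalizes it -/
theorem hol_cyc (hC : ClosedE C) {Γ : Type} [Group Γ] (A : Subgroup Γ) {H : Type} [Group H]
    (κ : A ≃* H) (hH : C (Hol H)) (g : Γ) (hg : ∀ x, x ∈ A ↔ g * x * g⁻¹ ∈ A) :
    C ↥(A ⊔ Subgroup.zpowers g) := by
  obtain ⟨M, hM⟩ : ∃ M : Subgroup Γ, M = A ⊔ Subgroup.zpowers g := ⟨_, rfl⟩
  rw [← hM]
  have hAM : A ≤ M := by
    rw [hM]
    exact le_sup_left
  have hgM : g ∈ M := by
    rw [hM]
    exact Subgroup.mem_sup_right (Subgroup.mem_zpowers g)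
  have hn : M ≤ Subgroup.normalizer (A : Set Γ) := by
    rw [hM]
    refine sup_le Subgroup.le_normalizer ?_
    rw [Subgroup.zpowers_le, Subgroup.mem_normalizer_iff]
    exact hg
  haveI : (A.subgroupOf M).Normal := Subgroup.normal_subgroupOf_of_le_normalizer hn
  have hQ : C (M ⧸ A.subgroupOf M) := by
    obtain ⟨q, hq⟩ : ∃ q : M ⧸ A.subgroupOf M, q = QuotientGroup.mk ⟨g, hgM⟩ := ⟨_, rfl⟩
    have h1 : ∀ x : M ⧸ A.subgroupOf M, x ∈ Subgroup.zpowers q := by
      intro x
      obtain ⟨⟨x, hx⟩, rfl⟩ := QuotientGroup.mk_surjective x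
      have h2 : M ≤ ((Subgroup.zpowers q).comap (QuotientGroup.mk' (A.subgroupOf M))).map
          M.subtype := by
        conv_lhs => rw [hM]
        refine sup_le ?_ ?_
        · intro a ha
          refine ⟨⟨a, hAM ha⟩, ?_, rfl⟩
          rw [SetLike.mem_coe, Subgroup.mem_comap]
          have : QuotientGroup.mk' (A.subgroupOf M) ⟨a, hAM ha⟩ = 1 := by
            rw [QuotientGroup.mk'_apply, QuotientGroup.eq_one_iff, Subgroup.mem_subgroupOf]
            exact ha
          rw [this]
          exact one_mem _
        · rw [Subgroup.zpowers_le]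
          refine ⟨⟨g, hgM⟩, ?_, rfl⟩
          rw [SetLike.mem_coe, Subgroup.mem_comap, hq]
          exact Subgroup.mem_zpowers _
      obtain ⟨x', hx', e⟩ := h2 hx
      have e' : x' = ⟨x, hx⟩ := Subtype.ext e
      rw [← e']
      exact hx'
    have h3 : Subgroup.zpowers q = ⊤ := by
      rw [eq_top_iff]
      exact fun x _ => h1 x
    refine C_equiv hC.base (Subgroup.topEquiv (G := M ⧸ A.subgroupOf M)).symm ?_
    rw [← h3]
    exact C_cyc hC.base q
  refine Pool.Agent.R779.FJ.t_crit Pool.Agent.Y529.FJ.t_ext
    (Pool.Agent.Y961.FJ.t_perm Pool.Agent.Y529.FJ.t_ext) C hC M (A.subgroupOf M) hQ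
    fun m E _ hE => ?_
  obtain ⟨κ', hκ'⟩ : ∃ κ' : A.subgroupOf M ≃* H, κ' = (Subgroup.subgroupOfEquivOfLe hAM).trans κ :=
    ⟨_, rfl⟩
  have hcl : Subgroup.closure (E ∪ (fun x => m * x * m⁻¹) '' E) ≤ A.subgroupOf M := by
    rw [Subgroup.closure_le]
    rintro x (hx | ⟨x, hx, rfl⟩)
    · exact hE hx
    · exact ‹(A.subgroupOf M).Normal›.conj_mem x (hE hx) m
  refine ⟨Hol H, inferInstance,
    (SemidirectProduct.inl.comp κ'.toMonoidHom).comp (Subgroup.inclusion hcl),
    SemidirectProduct.inr ((κ'.symm.trans (MulAut.conjNormal m)).trans κ'), hH, ?_, ?_⟩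
  · exact (SemidirectProduct.inl_injective.comp κ'.injective).comp
      (Subgroup.inclusion_injective hcl)
  · intro x y _ hxy
    have h1 : Subgroup.inclusion hcl y = MulAut.conjNormal m (Subgroup.inclusion hcl x) := by
      apply Subtype.ext
      rw [MulAut.conjNormal_apply]
      exact hxy
    change SemidirectProduct.inl (κ' (Subgroup.inclusion hcl y)) =
      SemidirectProduct.inr _ * SemidirectProduct.inl (κ' (Subgroup.inclusion hcl x)) *
        (SemidirectProduct.inr _)⁻¹
    rw [← map_inv, ← SemidirectProduct.inl_aut, h1]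
    congr 1
    change _ = κ' (MulAut.conjNormal m (κ'.symm (κ' (Subgroup.inclusion hcl x))))
    rw [MulEquiv.symm_apply_apply]

variable {ι : Type} {G : ι → Type} [∀ i, Group (G i)]

/-- **semidirect products of a free product with a group that preserves the factors up to
conjugation** -/
theorem sd (hC : ClosedE C) (hF : FbC C) {Q : Type} [Group Q] (θ : Q →* MulAut (CoprodI G))
    (hQ : C Q) (hθ : ∀ (q : Q) (i : ι), ∃ (y : CoprodI G) (e : MulAut (G i)),
      ∀ g : G i, θ q (of g) = y * of (e g) * y⁻¹)
    (hH : ∀ i, C (Hol (G i))) : C (CoprodI G ⋊[θ] Q) := by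
  obtain ⟨A, hA⟩ : ∃ A : ι → Subgroup (CoprodI G ⋊[θ] Q), A = fun i =>
    ((SemidirectProduct.inl (φ := θ)).comp (of : G i →* CoprodI G)).range := ⟨_, rfl⟩
  have hmem : ∀ i x, x ∈ A i ↔ ∃ g : G i, SemidirectProduct.inl (of g) = x := by
    intro i x
    rw [hA]
    rfl
  have hQ' : C ((CoprodI G ⋊[θ] Q) ⧸ (SemidirectProduct.rightHom (φ := θ)).ker) :=
    C_equiv hC.base (QuotientGroup.quotientKerEquivOfSurjective _
      SemidirectProduct.rightHom_surjective) hQ
  have hconj : ∀ i (g : CoprodI G ⋊[θ] Q), ∃ (y : CoprodI G) (e : MulAut (G i)),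
      ∀ a : G i, g * SemidirectProduct.inl (of a) * g⁻¹ =
        SemidirectProduct.inl (y * of (e a) * y⁻¹) := by
    intro i g
    obtain ⟨y, e, h⟩ := hθ g.right i
    refine ⟨g.left * y, e, fun a => ?_⟩
    conv_lhs => rw [← SemidirectProduct.inl_left_mul_inr_right g]
    have h1 : SemidirectProduct.inl (θ g.right (of a)) =
      (SemidirectProduct.inr g.right * SemidirectProduct.inl (of a) *
        SemidirectProduct.inr g.right⁻¹ : CoprodI G ⋊[θ] Q) := SemidirectProduct.inl_aut _ _
    have h2 : (SemidirectProduct.inl g.left * SemidirectProduct.inr g.right *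
        SemidirectProduct.inl (of a) * (SemidirectProduct.inl g.left *
          SemidirectProduct.inr g.right)⁻¹ : CoprodI G ⋊[θ] Q) =
        SemidirectProduct.inl g.left * (SemidirectProduct.inr g.right *
          SemidirectProduct.inl (of a) * SemidirectProduct.inr g.right⁻¹) *
            (SemidirectProduct.inl g.left)⁻¹ := by
      rw [map_inv]
      group
    rw [h2, ← h1, h, ← map_inv, ← map_mul, ← map_mul]
    congr 1
    group
  refine main_all hC hF hQ' A Set.univ ⟨?_, ?_⟩ (fun i hi => absurd (Set.mem_univ i) hi) ?_ ?_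
  · -- the factors generate the kernel
    rw [← SemidirectProduct.range_inl_eq_ker_rightHom]
    apply le_antisymm
    · refine iSup_le fun i => ?_
      intro x hx
      obtain ⟨g, rfl⟩ := (hmem i x).1 hx
      exact ⟨_, rfl⟩
    · rintro _ ⟨w, rfl⟩
      induction w using CoprodI.induction_on with
      | one =>
        rw [map_one]
        exact one_mem _
      | of i g => exact Subgroup.mem_iSup_of_mem i ((hmem i _).2 ⟨g, rfl⟩)
      | mul x y hx hy =>
        rw [map_mul]
        exact mul_mem hx hy
  · -- the free product of the factors is embedded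
    rw [injective_iff_map_eq_one]
    intro x hx
    let j : CoprodI G →* CoprodI (fun i => A i) := CoprodI.lift fun i =>
      (of (M := fun i => A i) (i := i)).comp
        (((SemidirectProduct.inl (φ := θ)).comp (of : G i →* CoprodI G)).codRestrict (A i)
          fun g => (hmem i _).2 ⟨g, rfl⟩)
    have hj1 : (CoprodI.lift fun i => (A i).subtype).comp j = SemidirectProduct.inl := by
      apply CoprodI.ext_hom
      intro i
      ext1 g
      change CoprodI.lift (fun i => (A i).subtype) (j (of g)) = _
      have : j (of g) = of (M := fun i => A i) (i := i)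
          (⟨SemidirectProduct.inl (of g), (hmem i _).2 ⟨g, rfl⟩⟩ : A i) := by
        change CoprodI.lift _ (of g) = _
        rw [CoprodI.lift_of]
        rfl
      rw [this, CoprodI.lift_of]
      rfl
    have hj2 : ∀ x : CoprodI (fun i => A i), ∃ w, j w = x := by
      intro x
      induction x using CoprodI.induction_on with
      | one => exact ⟨1, map_one _⟩
      | of i a =>
        obtain ⟨a, ha⟩ := a
        obtain ⟨g, rfl⟩ := (hmem i a).1 ha
        refine ⟨of g, ?_⟩
        change CoprodI.lift _ (of g) = _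
        rw [CoprodI.lift_of]
        rfl
      | mul x y hx hy =>
        obtain ⟨w, rfl⟩ := hx
        obtain ⟨w', rfl⟩ := hy
        exact ⟨w * w', map_mul _ _ _⟩
    obtain ⟨w, rfl⟩ := hj2 x
    have h1 : SemidirectProduct.inl (φ := θ) w = 1 := by
      rw [← hj1]
      exact hx
    have h2 : w = 1 := SemidirectProduct.inl_injective (h1.trans (map_one _).symm)
    rw [h2, map_one]
  · -- the classes of the factors are preserved
    intro i _ g
    obtain ⟨y, e, h⟩ := hconj i g
    refine ⟨i, Set.mem_univ i, SemidirectProduct.inl y⁻¹, ?_, fun x => ?_⟩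
    · rw [MonoidHom.mem_ker, SemidirectProduct.rightHom_inl]
    · have key : ∀ a : G i, SemidirectProduct.inl y⁻¹ * (g * SemidirectProduct.inl (of a) * g⁻¹) *
          (SemidirectProduct.inl y⁻¹)⁻¹ = (SemidirectProduct.inl (of (e a)) : CoprodI G ⋊[θ] Q) := by
        intro a
        rw [h, ← map_inv, ← map_mul, ← map_mul]
        congr 1
        group
      constructor
      · intro hx
        obtain ⟨a, rfl⟩ := (hmem i x).1 hx
        rw [key]
        exact (hmem i _).2 ⟨_, rfl⟩
      · intro hx
        obtain ⟨b, hb⟩ := (hmem i _).1 hx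
        have h1 := key (e.symm b)
        rw [MulEquiv.apply_symm_apply, hb] at h1
        have h2 : SemidirectProduct.inl (of (e.symm b)) = x := by
          have h3 := mul_left_cancel (mul_right_cancel h1)
          exact mul_left_cancel (mul_right_cancel h3)
        exact (hmem i x).2 ⟨_, h2⟩
  · intro i _ g hg
    have hinj : Function.Injective ((SemidirectProduct.inl (φ := θ)).comp
        (of : G i →* CoprodI G)) := SemidirectProduct.inl_injective.comp (of_injective i)
    have e : A i ≃* G i := by
      rw [hA]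
      exact (MonoidHom.ofInjective hinj).symm
    exact hol_cyc hC (A i) e (hH i) g hg

end Pool.Agent.U74.FA
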