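import Mathlib

/-!
# Reduced words in free products

Owner helper74.
-/

set_option autoImplicit false

namespace Pool.Agent.U74.FA

open Monoid Monoid.CoprodI

variable {ι : Type} {G : ι → Type} [∀ i, Group (G i)]

theorem word_inj {w w' : Word G} (h : w.prod = w'.prod) : w = w' := by
  classical
  exact (Word.equiv (M := G)).symm.injective h

theorem toList_eq {i j k l : ι} (w : NeWord G i j) (w' : NeWord G k l) (h : w.prod = w'.prod) :
    w.toList = w'.toList := by
  have h1 : w.toWord = w'.toWord := word_inj h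
  exact congrArg Word.toList h1

theorem ne_one {i j : ι} (w : NeWord G i j) : w.prod ≠ 1 := by
  intro h
  have h1 : w.toWord = Word.empty := word_inj (h.trans Word.prod_empty.symm)
  exact w.toList_ne_nil (congrArg Word.toList h1)

theorem head_eq {i j k l : ι} {w : NeWord G i j} {w' : NeWord G k l} (h : w.prod = w'.prod) :
    i = k := by
  have h1 := congrArg List.head? (toList_eq w w' h)
  rw [w.toList_head?, w'.toList_head?, Option.some.injEq] at h1
  exact congrArg Sigma.fst h1

theorem last_eq {i j k l : ι} {w : NeWord G i j} {w' : NeWord G k l} (h : w.prod = w'.prod) :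
    j = l := by
  have h1 := congrArg List.getLast? (toList_eq w w' h)
  rw [w.toList_getLast?, w'.toList_getLast?, Option.some.injEq] at h1
  exact congrArg Sigma.fst h1

/-- `c` is reduced: no letter of `G i` on the left and no letter of `G j` on the right -/
def Rd (i j : ι) (c : CoprodI G) : Prop :=
  c = 1 ∨ ∃ (k l : ι) (w : NeWord G k l), k ≠ i ∧ l ≠ j ∧ w.prod = c

theorem Rd.inv {i j : ι} {c : CoprodI G} (h : Rd i j c) : Rd j i c⁻¹ := by
  rcases h with rfl | ⟨k, l, w, hk, hl, rfl⟩
  · left
    exact inv_one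
  · right
    exact ⟨l, k, w.inv, hl, hk, w.inv_prod⟩

theorem Rd.mid {i j k : ι} {u v : CoprodI G} {g : G k} (hg : g ≠ 1) (hik : k ≠ i) (hjk : k ≠ j)
    (hu : Rd i k u) (hv : Rd k j v) : Rd i j (u * of g * v) := by
  right
  rcases hu with rfl | ⟨a, b, w, ha, hb, rfl⟩
  · rcases hv with rfl | ⟨a', b', w', ha', hb', rfl⟩
    · exact ⟨k, k, NeWord.singleton g hg, hik, hjk, by simp⟩
    · exact ⟨k, b', NeWord.append (NeWord.singleton g hg) ha'.symm w', hik, hb', by simp⟩
  · rcases hv with rfl | ⟨a', b', w', ha', hb', rfl⟩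
    · exact ⟨a, k, NeWord.append w hb (NeWord.singleton g hg), ha, hjk, by simp⟩
    · exact ⟨a, b', NeWord.append (NeWord.append w hb (NeWord.singleton g hg)) ha'.symm w', ha, hb',
        by simp⟩

theorem eq_one_of {k i : ι} (hki : k ≠ i) {a : G k} {c : G i} {u : CoprodI G} (hu : Rd k i u)
    (h : of a * u = of c) : a = 1 := by
  by_contra ha
  have hc : c ≠ 1 := by
    rintro rfl
    rw [map_one] at h
    rcases hu with rfl | ⟨m, l, w, hm, hl, rfl⟩
    · rw [mul_one] at h
      exact ne_one (NeWord.singleton a ha) (by simpa using h)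
    · exact ne_one (NeWord.append (NeWord.singleton a ha) hm.symm w) (by simpa using h)
  rcases hu with rfl | ⟨m, l, w, hm, hl, rfl⟩
  · exact hki (head_eq (w := NeWord.singleton a ha) (w' := NeWord.singleton c hc)
      (by simpa using h))
  · exact hl (last_eq (w := NeWord.append (NeWord.singleton a ha) hm.symm w)
      (w' := NeWord.singleton c hc) (by simpa using h))

theorem right_dec (i : ι) (c : CoprodI G) : ∃ (d : G i) (c' : CoprodI G), c = c' * of d ∧
    (c' = 1 ∨ ∃ (k l : ι) (w : NeWord G k l), l ≠ i ∧ w.prod = c') := by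
  classical
  obtain ⟨W, hW⟩ : ∃ W : Word G, W.prod = c⁻¹ := ⟨_, (Word.equiv (M := G)).symm_apply_apply c⁻¹⟩
  obtain ⟨p, hp⟩ : ∃ p : Word.Pair G i, Word.rcons p = W :=
    ⟨Word.equivPair i W, by rw [← Word.equivPair_symm, Equiv.symm_apply_apply]⟩
  have h1 : c⁻¹ = of p.head * p.tail.prod := by rw [← hW, ← hp, Word.prod_rcons]
  refine ⟨p.head⁻¹, p.tail.prod⁻¹, ?_, ?_⟩
  · rw [map_inv, ← mul_inv_rev, ← h1, inv_inv]
  · by_cases ht : p.tail = Word.empty
    · left
      rw [ht, Word.prod_empty, inv_one]
    · right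
      obtain ⟨k, l, w, hw⟩ := NeWord.of_word p.tail ht
      refine ⟨l, k, w.inv, ?_, ?_⟩
      · rintro rfl
        apply p.fstIdx_ne
        rw [← hw]
        unfold Word.fstIdx
        have : w.toWord.toList.head? = some ⟨k, w.head⟩ := w.toList_head?
        rw [this]
        rfl
      · rw [NeWord.inv_prod, ← hw]
        rfl

theorem of_ne {i j : ι} (hij : i ≠ j) {a : G i} {b : G j} (h : of a = (of b : CoprodI G)) :
    a = 1 := by
  refine eq_one_of hij (c := b) (u := 1) (Or.inl rfl) ?_
  rw [mul_one]
  exact h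

/-- the factors are malnormal -/
theorem malnormal {i : ι} {c : CoprodI G} {x x' : G i} (hx : x ≠ 1)
    (h : c * of x * c⁻¹ = of x') : ∃ d : G i, c = of d := by
  obtain ⟨d, c', rfl, hc'⟩ := right_dec i c
  have hy : d * x * d⁻¹ ≠ 1 := by
    intro h1
    apply hx
    have h2 : d * x = d := by
      have := congrArg (· * d) h1
      simpa using this
    exact mul_eq_left.1 h2
  have h1 : c' * of (d * x * d⁻¹) * c'⁻¹ = of x' := by
    rw [← h, map_mul, map_mul, map_inv]
    group
  rcases hc' with rfl | ⟨k, l, w, hl, rfl⟩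
  · exact ⟨d, one_mul _⟩
  · exfalso
    have hx' : x' ≠ 1 := by
      rintro rfl
      rw [map_one, mul_inv_eq_one, mul_eq_left] at h1
      exact ne_one (NeWord.singleton _ hy) (by simpa using h1)
    have h2 : (NeWord.append (NeWord.append w hl (NeWord.singleton _ hy)) hl.symm w.inv).prod =
        (NeWord.singleton x' hx').prod := by
      rw [NeWord.append_prod, NeWord.append_prod, NeWord.prod_singleton, NeWord.prod_singleton,
        NeWord.inv_prod, h1]
    have h3 := congrArg List.length (toList_eq _ _ h2)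
    have h4 : (NeWord.append (NeWord.append w hl (NeWord.singleton _ hy)) hl.symm w.inv).toList =
        (w.toList ++ [⟨i, d * x * d⁻¹⟩]) ++ w.inv.toList := rfl
    have h5 : (NeWord.singleton x' hx').toList = [⟨i, x'⟩] := rfl
    rw [h4, h5, List.length_append, List.length_append, List.length_singleton,
      List.length_singleton] at h3
    have h6 := List.length_pos_iff.2 w.toList_ne_nil
    omega

end Pool.Agent.U74.FA
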